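import Pool.Agent.Lib.MP_fbb849_al.H83.Porc

namespace Pool.Agent.Results.MP_fbb849_al.PorcDensePartialOvoids

open Pool.Agent.UU4

/-- If `p ↦ ω(UU_4(F_p))` is PORC for large primes, then there is `δ > 0` such that for every
large prime `p` the symplectic quadrangle `W(3,p)` has a partial ovoid with at least `δ p ^ 2`
points. -/
theorem result : IsPORC (fun p => omega (UU 4 p)) →
    ∃ δ : ℝ, 0 < δ ∧ ∃ p0 : ℕ, ∀ p : ℕ, p.Prime → p0 ≤ p →
      δ * (p : ℝ) ^ 2 ≤ maxPartialOvoid p :=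
  porc_dense

end Pool.Agent.Results.MP_fbb849_al.PorcDensePartialOvoids
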