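import Pool.Agent.Lib.MP_fbb849_al.H83.Formula

namespace Pool.Agent.Results.MP_fbb849_al.UnitriangularFour

open Pool.Agent.UU4

/-- For every odd prime `p`, the non-commuting number of `UU_4(F_p)` is
`p ^ 3 - p + 1 + m(p)`, where `m(p)` is the size of the largest partial ovoid of the symplectic
generalized quadrangle `W(3,p)`. -/
theorem result : ∀ p : ℕ, p.Prime → p ≠ 2 →
    omega (UU 4 p) = p ^ 3 - p + 1 + maxPartialOvoid p := by
  intro p hp hp2
  have : Fact p.Prime := ⟨hp⟩
  exact omega_UU4 hp2

end Pool.Agent.Results.MP_fbb849_al.UnitriangularFour
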